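import Mathlib
import Pool.Agent.Lib.MP_ff3579_an.X.Iface
import Pool.Agent.Lib.MP_ff3579_an.H78.Near

/-! Module SLP: good primes exclude factors of degree `k`. -/

set_option autoImplicit false

open Polynomial

namespace Pool.Agent.Lib.MP_ff3579_an.X.H78

open Pool.Agent.Lib.MP_ff3579_an Pool.Agent.Lib.MP_ff3579_an.H78

theorem slope_arith' {k p i A a b : ℕ} (hp7 : 7 ≤ p) (hp8 : 8 * k ≤ p + 2) (hk : 1 ≤ k)
    (hi : 1 ≤ i) (ha : (p - 1) * a ≤ 2 * i) (ha0 : 2 * i + 1 < p → a = 0)
    (hb : (p - 1) * b + 1 ≤ i) (hb0 : i ≤ p → b = 0)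
    (hA : A = 0 ∨ (p + 1 ≤ 4 * k + 2 * i ∧ 2 * k * (2 + A) ≤ p)) :
    k * (A + a + b) < i := by
  rcases hA with hA | ⟨h1, h2⟩
  · exact slope_arith (p := p) (by omega) hp7 hp8 hk hi ha hb (Or.inl hA)
  have h3 : 2 * k * (2 + A) = 4 * k + 2 * (k * A) := by ring
  rcases Nat.lt_or_ge (2 * i + 1) p with h | h
  · rw [ha0 h, hb0 (by omega), add_zero, add_zero]
    omega
  · obtain ⟨P, hP⟩ : ∃ P, p = P + 1 := ⟨p - 1, by omega⟩
    subst hP
    rw [Nat.add_sub_cancel] at ha hb
    have hPpos : 0 < P := by omega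
    obtain ⟨i', hi'⟩ : ∃ i', i = i' + 1 := ⟨i - 1, by omega⟩
    -- multiply by `2 P`
    have e1 : P * (2 * (k * A) + 4 * k) ≤ P * (P + 1) := Nat.mul_le_mul_left _ (by omega)
    have e2 : 2 * k * (P * a) ≤ 2 * k * (2 * i) := Nat.mul_le_mul_left _ ha
    have e3 : 2 * k * (P * b) ≤ 2 * k * i' := Nat.mul_le_mul_left _ (by omega)
    have e4 : 3 * k ≤ P := by omega
    obtain ⟨t, ht⟩ : ∃ t, P = 3 * k + t := ⟨P - 3 * k, by omega⟩
    -- `i (2 P - 6 k) ≥ P (P - 3 k)`
    have e5 : t * P ≤ t * (2 * i) := Nat.mul_le_mul_left _ (by omega)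
    have e6 : P * 1 ≤ P * k := Nat.mul_le_mul_left _ hk
    have key : 2 * P * (k * (A + a + b)) < 2 * P * i := by
      have f1 : 2 * P * (k * (A + a + b)) + 4 * (P * k) =
          P * (2 * (k * A) + 4 * k) + 2 * k * (P * a) + 2 * k * (P * b) := by ring
      have f2 : P * (P + 1) = 3 * (P * k) + t * P + P := by
        nth_rewrite 2 [ht]; ring
      have f3 : 2 * P * i = 6 * (k * i) + t * (2 * i) := by
        nth_rewrite 1 [ht]; ring
      have f4 : 2 * k * (2 * i) = 4 * (k * i) := by ring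
      have f5 : 2 * k * i' + 2 * k = 2 * (k * i) := by rw [hi']; ring
      omega
    exact lt_of_mul_lt_mul_left key (Nat.zero_le _)

theorem slope_of_window' {N k x p : ℕ} (hp : p.Prime) (hk : 1 ≤ k) (hp7 : 7 ≤ p)
    (hp8 : 8 * k ≤ p + 2) (hx1 : N < x + 2 * k) (hx2 : x ≤ N + 2 * k) (hB : p ∣ x)
    (hbig : 2 * k * (2 + Nat.log p (2 * N)) ≤ p) : Slope N k p := by
  have hF : Fact p.Prime := ⟨hp⟩
  intro i hi hiN
  have hp2 : p ≠ 2 := by omega
  obtain ⟨w₀, hw₀, hle⟩ := val_cf_le (p := p) hp2 hi hiN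
  obtain ⟨A, hA⟩ : ∃ A, A = padicValNat p (2 * N - 1 - 2 * w₀) := ⟨_, rfl⟩
  have hApow : p ^ A ∣ 2 * N - 1 - 2 * w₀ := by rw [hA]; exact pow_padicValNat_dvd
  have ha := sub_one_mul_padicValNat_factorial_lt_of_ne_zero (p := p) (n := 2 * i + 1) (by omega)
  have hb : (p - 1) * padicValNat p (i - 1).factorial + 1 ≤ i := by
    rcases Nat.eq_or_lt_of_le hi with h | h
    · rw [← h]; simp
    · have := sub_one_mul_padicValNat_factorial_lt_of_ne_zero (p := p) (n := i - 1) (by omega)
      omega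
  have hmain : k * (A + padicValNat p (2 * i + 1).factorial +
      padicValNat p (i - 1).factorial) < i := by
    apply slope_arith' (p := p) hp7 hp8 hk hi (by omega) _ hb
    · intro h
      apply padicValNat.eq_zero_of_not_dvd
      intro h'
      have := hp.dvd_factorial.1 h'
      omega
    · rcases Nat.eq_zero_or_pos A with hA0 | hA0
      · exact Or.inl hA0
      right
      constructor
      · have h2 : p ∣ 2 * N - 1 - 2 * w₀ := (dvd_pow_self p (by omega)).trans hApow
        rcases Nat.lt_or_ge (2 * N - 1 - 2 * w₀) (2 * x) with h | h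
        · have h3 : p ∣ 2 * x - (2 * N - 1 - 2 * w₀) := Nat.dvd_sub (hB.mul_left 2) h2
          have h4 := Nat.le_of_dvd (by omega) h3
          omega
        · have h3 : p ∣ (2 * N - 1 - 2 * w₀) - 2 * x := Nat.dvd_sub h2 (hB.mul_left 2)
          have h4 := Nat.le_of_dvd (by omega) h3
          omega
      · refine le_trans (Nat.mul_le_mul_left _ ?_) hbig
        have h2 : A ≤ Nat.log p (2 * N) := by
          apply Nat.le_log_of_pow_le hp.one_lt
          exact (Nat.le_of_dvd (by omega) hApow).trans (by omega)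
        omega
    · intro h
      apply padicValNat.eq_zero_of_not_dvd
      intro h'
      have := hp.dvd_factorial.1 h'
      omega
  have h1 : k * padicValNat p (cf N (N / 2)) ≤ k * (padicValNat p (cf N (N / 2 - i)) +
      (A + padicValNat p (2 * i + 1).factorial + padicValNat p (i - 1).factorial)) := by
    apply Nat.mul_le_mul_left
    omega
  rw [mul_add] at h1
  omega

theorem slp : SlpStatement := by
  intro N k A B hk hgood hAB hA hB hdeg
  have hdeg2 : A.natDegree + B.natDegree = N / 2 := by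
    rw [← hA.natDegree_mul hB, hAB, Zp_natDegree]
  rcases hgood with ⟨p, x, C, hp, hp8, hx1, hx2, hC, hdvd, hor⟩ | ⟨p, b, hp, h1, h2, hb, hdvd⟩
  · have hp7 : 7 ≤ p := by
      have h6 : 6 ≤ p := by omega
      rcases Nat.eq_or_lt_of_le h6 with h | h
      · rw [← h] at hp
        norm_num at hp
      · exact h
    have hpx : p ∣ x := (dvd_pow_self p (by omega)).trans hdvd
    refine no_factor hAB hA hB hdeg hk hp hx1 hx2 hpx ?_
    rcases hor with hor | hor
    · exact slope_of_window' hp hk hp7 hp8 hx1 hx2 hpx hor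
    · exact slope_of_window hp hk hp7 hp8 hx1 hx2 hdvd hor
  · exact no_factor (x := N - b) hAB hA hB hdeg hk hp (by omega) (by omega) hdvd
      (slope_of_large hp h1 h2 hb (by omega) hdvd)

end Pool.Agent.Lib.MP_ff3579_an.X.H78
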