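import Mathlib
import Pool.Agent.Lib.MP_ff3579_an.X.Iface

/-! Module SOL: equations of degree at most four are solvable by radicals. -/

set_option autoImplicit false

open Polynomial

namespace Pool.Agent.Lib.MP_ff3579_an.X.H78

open Pool.Agent.Lib.MP_ff3579_an


theorem rat_mem (q : ℚ) : (q : ℂ) ∈ (solvableByRad ℚ ℂ) := by
  have := (solvableByRad ℚ ℂ).algebraMap_mem q
  simpa using this

theorem int_mem (q : ℤ) : (q : ℂ) ∈ (solvableByRad ℚ ℂ) := by
  have := rat_mem q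
  simpa using this

theorem nat_mem (q : ℕ) : (q : ℂ) ∈ (solvableByRad ℚ ℂ) := by
  have := rat_mem q
  simpa using this

theorem quad_mem {b c z : ℂ} (hb : b ∈ (solvableByRad ℚ ℂ)) (hc : c ∈ (solvableByRad ℚ ℂ)) (h : z ^ 2 + b * z + c = 0) : z ∈ (solvableByRad ℚ ℂ) := by
  have h2 : (2 : ℂ) ∈ (solvableByRad ℚ ℂ) := nat_mem 2
  have h4 : (4 : ℂ) ∈ (solvableByRad ℚ ℂ) := nat_mem 4
  have h1 : (z + b / 2) ^ 2 ∈ (solvableByRad ℚ ℂ) := by
    have : (z + b / 2) ^ 2 = b ^ 2 / 4 - c := by linear_combination h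
    rw [this]
    exact sub_mem (div_mem (pow_mem hb 2) h4) hc
  have h3 := solvableByRad.rad_mem (by norm_num) h1
  have : z = (z + b / 2) - b / 2 := by ring
  rw [this]
  exact sub_mem h3 (div_mem hb h2)

theorem cubic0_mem {p q z : ℂ} (hp : p ∈ (solvableByRad ℚ ℂ)) (hq : q ∈ (solvableByRad ℚ ℂ)) (h : z ^ 3 + p * z + q = 0) : z ∈ (solvableByRad ℚ ℂ) := by
  have h3 : (3 : ℂ) ∈ (solvableByRad ℚ ℂ) := nat_mem 3
  have h27 : (27 : ℂ) ∈ (solvableByRad ℚ ℂ) := nat_mem 27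
  obtain ⟨w, hw⟩ := IsAlgClosed.exists_pow_nat_eq (z ^ 2 + 4 * p / 3) (n := 2) (by norm_num)
  obtain ⟨u, hu⟩ : ∃ u, u = (z + w) / 2 := ⟨_, rfl⟩
  have hu2 : u ^ 2 - z * u - p / 3 = 0 := by
    rw [hu]
    linear_combination (1 / 4 : ℂ) * hw
  rcases eq_or_ne u 0 with h0 | h0
  · rw [h0] at hu2
    have hp0 : p = 0 := by linear_combination (-3 : ℂ) * hu2
    rw [hp0] at h
    have : z ^ 3 = -q := by linear_combination h
    exact solvableByRad.rad_mem (n := 3) (by norm_num) (by rw [this]; exact neg_mem hq)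
  · have hz : z = u - p / (3 * u) := by
      field_simp
      linear_combination (-3 : ℂ) * hu2
    have h6 : (u ^ 3) ^ 2 + q * u ^ 3 + (-(p ^ 3 / 27)) = 0 := by
      have e1 : (u ^ 3) ^ 2 + q * u ^ 3 + (-(p ^ 3 / 27)) = u ^ 3 * (z ^ 3 + p * z + q) := by
        rw [hz]
        field_simp
        ring
      rw [e1, h, mul_zero]
    have hu3 : u ^ 3 ∈ (solvableByRad ℚ ℂ) := quad_mem hq (neg_mem (div_mem (pow_mem hp 3) h27)) h6
    have hu' : u ∈ (solvableByRad ℚ ℂ) := solvableByRad.rad_mem (by norm_num) hu3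
    rw [hz]
    exact sub_mem hu' (div_mem hp (mul_mem h3 hu'))

theorem cubic_mem {a b c z : ℂ} (ha : a ∈ (solvableByRad ℚ ℂ)) (hb : b ∈ (solvableByRad ℚ ℂ)) (hc : c ∈ (solvableByRad ℚ ℂ))
    (h : z ^ 3 + a * z ^ 2 + b * z + c = 0) : z ∈ (solvableByRad ℚ ℂ) := by
  have h3 : (3 : ℂ) ∈ (solvableByRad ℚ ℂ) := nat_mem 3
  have h2 : (2 : ℂ) ∈ (solvableByRad ℚ ℂ) := nat_mem 2
  have h27 : (27 : ℂ) ∈ (solvableByRad ℚ ℂ) := nat_mem 27
  have h1 : z + a / 3 ∈ (solvableByRad ℚ ℂ) := by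
    apply cubic0_mem (p := b - a ^ 2 / 3) (q := 2 * a ^ 3 / 27 - a * b / 3 + c)
    · exact sub_mem hb (div_mem (pow_mem ha 2) h3)
    · exact add_mem (sub_mem (div_mem (mul_mem h2 (pow_mem ha 3)) h27)
        (div_mem (mul_mem ha hb) h3)) hc
    · linear_combination h
  have : z = (z + a / 3) - a / 3 := by ring
  rw [this]
  exact sub_mem h1 (div_mem ha h3)

theorem exists_cubic_root (a b c : ℂ) : ∃ z : ℂ, z ^ 3 + a * z ^ 2 + b * z + c = 0 := by
  obtain ⟨z, hz⟩ := IsAlgClosed.exists_root (X ^ 3 + C a * X ^ 2 + C b * X + C c : ℂ[X]) (by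
    have : (X ^ 3 + C a * X ^ 2 + C b * X + C c : ℂ[X]).degree = 3 := by compute_degree!
    rw [this]; norm_num)
  refine ⟨z, ?_⟩
  simpa [IsRoot] using hz

theorem quartic0_mem {p q r y : ℂ} (hp : p ∈ (solvableByRad ℚ ℂ)) (hq : q ∈ (solvableByRad ℚ ℂ)) (hr : r ∈ (solvableByRad ℚ ℂ))
    (h : y ^ 4 + p * y ^ 2 + q * y + r = 0) : y ∈ (solvableByRad ℚ ℂ) := by
  have h2 : (2 : ℂ) ∈ (solvableByRad ℚ ℂ) := nat_mem 2
  have h4 : (4 : ℂ) ∈ (solvableByRad ℚ ℂ) := nat_mem 4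
  have h8 : (8 : ℂ) ∈ (solvableByRad ℚ ℂ) := nat_mem 8
  obtain ⟨m, hm⟩ := exists_cubic_root p (p ^ 2 / 4 - r) (-(q ^ 2 / 8))
  have hmK : m ∈ (solvableByRad ℚ ℂ) := cubic_mem hp (sub_mem (div_mem (pow_mem hp 2) h4) hr)
    (neg_mem (div_mem (pow_mem hq 2) h8)) hm
  rcases eq_or_ne m 0 with h0 | h0
  · rw [h0] at hm
    have hq0 : q ^ 2 = 0 := by linear_combination (-8 : ℂ) * hm
    have hq0' : q = 0 := by simpa using hq0
    rw [hq0'] at h
    have h5 : (y ^ 2) ^ 2 + p * y ^ 2 + r = 0 := by linear_combination h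
    exact solvableByRad.rad_mem (n := 2) (by norm_num) (quad_mem hp hr h5)
  · obtain ⟨s, hs⟩ := IsAlgClosed.exists_pow_nat_eq (2 * m) (n := 2) (by norm_num)
    have hsK : s ∈ (solvableByRad ℚ ℂ) := solvableByRad.rad_mem (n := 2) (by norm_num)
      (by rw [hs]; exact mul_mem h2 hmK)
    have hs0 : s ≠ 0 := by
      intro h5
      rw [h5] at hs
      apply h0
      have : (2 : ℂ) * m = 0 := by rw [← hs]; norm_num
      simpa using this
    have hqs : q / (2 * s) ∈ (solvableByRad ℚ ℂ) := div_mem hq (mul_mem h2 hsK)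
    have hsq : (y ^ 2 + p / 2 + m) ^ 2 = (s * y - q / (2 * s)) ^ 2 := by
      have e1 : (q / (2 * s)) ^ 2 = m ^ 2 + p * m + p ^ 2 / 4 - r := by
        have : (2 * s) ^ 2 = 8 * m := by rw [mul_pow, hs]; ring
        rw [div_pow, this, div_eq_iff (by simpa using h0)]
        linear_combination (-8 : ℂ) * hm
      have e2 : (s * y - q / (2 * s)) ^ 2 = s ^ 2 * y ^ 2 - q * y + (q / (2 * s)) ^ 2 := by
        field_simp
        ring
      rw [e2, e1, hs]
      linear_combination h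
    rcases sq_eq_sq_iff_eq_or_eq_neg.1 hsq with h5 | h5
    · apply quad_mem (b := -s) (c := p / 2 + m + q / (2 * s)) (neg_mem hsK)
        (add_mem (add_mem (div_mem hp h2) hmK) hqs)
      linear_combination h5
    · apply quad_mem (b := s) (c := p / 2 + m - q / (2 * s)) hsK
        (sub_mem (add_mem (div_mem hp h2) hmK) hqs)
      linear_combination h5

theorem quartic_mem {a b c d z : ℂ} (ha : a ∈ (solvableByRad ℚ ℂ)) (hb : b ∈ (solvableByRad ℚ ℂ)) (hc : c ∈ (solvableByRad ℚ ℂ)) (hd : d ∈ (solvableByRad ℚ ℂ))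
    (h : z ^ 4 + a * z ^ 3 + b * z ^ 2 + c * z + d = 0) : z ∈ (solvableByRad ℚ ℂ) := by
  have h2 : (2 : ℂ) ∈ (solvableByRad ℚ ℂ) := nat_mem 2
  have h3 : (3 : ℂ) ∈ (solvableByRad ℚ ℂ) := nat_mem 3
  have h4 : (4 : ℂ) ∈ (solvableByRad ℚ ℂ) := nat_mem 4
  have h8 : (8 : ℂ) ∈ (solvableByRad ℚ ℂ) := nat_mem 8
  have h16 : (16 : ℂ) ∈ (solvableByRad ℚ ℂ) := nat_mem 16
  have h256 : (256 : ℂ) ∈ (solvableByRad ℚ ℂ) := nat_mem 256
  have h1 : z + a / 4 ∈ (solvableByRad ℚ ℂ) := by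
    apply quartic0_mem (p := b - 3 * a ^ 2 / 8) (q := c - a * b / 2 + a ^ 3 / 8)
      (r := d - a * c / 4 + a ^ 2 * b / 16 - 3 * a ^ 4 / 256)
    · exact sub_mem hb (div_mem (mul_mem h3 (pow_mem ha 2)) h8)
    · exact add_mem (sub_mem hc (div_mem (mul_mem ha hb) h2)) (div_mem (pow_mem ha 3) h8)
    · exact sub_mem (add_mem (sub_mem hd (div_mem (mul_mem ha hc) h4))
        (div_mem (mul_mem (pow_mem ha 2) hb) h16)) (div_mem (mul_mem h3 (pow_mem ha 4)) h256)
    · linear_combination h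
  have : z = (z + a / 4) - a / 4 := by ring
  rw [this]
  exact sub_mem h1 (div_mem ha h4)

/-- roots of monic integer polynomials of degree at most four -/
theorem root_mem {f : ℤ[X]} (hf : f.Monic) (h1 : 1 ≤ f.natDegree) (h4 : f.natDegree ≤ 4) {z : ℂ}
    (hz : aeval z f = 0) : z ∈ (solvableByRad ℚ ℂ) := by
  rw [aeval_eq_sum_range] at hz
  have hlead : f.coeff f.natDegree = 1 := hf
  obtain ⟨m, hm⟩ : ∃ m, m = f.natDegree := ⟨_, rfl⟩
  rw [← hm] at h1 h4 hz hlead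
  interval_cases m
  · simp only [Finset.sum_range_succ, Finset.sum_range_zero, hlead, zsmul_eq_mul] at hz
    have : z = -((f.coeff 0 : ℤ) : ℂ) := by
      push_cast at hz
      linear_combination hz
    rw [this]
    exact neg_mem (int_mem _)
  · simp only [Finset.sum_range_succ, Finset.sum_range_zero, hlead, zsmul_eq_mul] at hz
    refine quad_mem (int_mem (f.coeff 1)) (int_mem (f.coeff 0)) ?_
    push_cast at hz
    linear_combination hz
  · simp only [Finset.sum_range_succ, Finset.sum_range_zero, hlead, zsmul_eq_mul] at hz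
    refine cubic_mem (int_mem (f.coeff 2)) (int_mem (f.coeff 1)) (int_mem (f.coeff 0)) ?_
    push_cast at hz
    linear_combination hz
  · simp only [Finset.sum_range_succ, Finset.sum_range_zero, hlead, zsmul_eq_mul] at hz
    refine quartic_mem (int_mem (f.coeff 3)) (int_mem (f.coeff 2)) (int_mem (f.coeff 1))
      (int_mem (f.coeff 0)) ?_
    push_cast at hz
    linear_combination hz

theorem sol : SolStatement := by
  intro n hn hn8
  have h1 := (aeval_markovConst hn).1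
  have h2 := congrArg (fun x : ℝ => (x : ℂ)) h1
  simp only [Complex.ofReal_zero] at h2
  have h3 : aeval ((4 * (markovConst n 2) ^ 2 : ℝ) : ℂ) (Zp (n + 1)) = 0 := by
    rw [← h2, ← Complex.coe_algebraMap, ← aeval_algebraMap_apply]
  have h4 := root_mem (Zp_monic (n + 1)) (by rw [Zp_natDegree]; omega)
    (by rw [Zp_natDegree]; omega) h3
  have h5 : ((markovConst n 2 : ℝ) : ℂ) ^ 2 ∈ (solvableByRad ℚ ℂ) := by
    have : ((markovConst n 2 : ℝ) : ℂ) ^ 2 = ((4 * (markovConst n 2) ^ 2 : ℝ) : ℂ) / 4 := by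
      push_cast; ring
    rw [this]
    exact div_mem h4 (nat_mem 4)
  exact solvableByRad.rad_mem (by norm_num) h5

end Pool.Agent.Lib.MP_ff3579_an.X.H78
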