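import Mathlib
import Pool.Agent.Lib.MP_ff3579_an.X.H78.Slp
import Pool.Agent.Lib.MP_ff3579_an.X.H78.Sol
import Pool.Agent.Lib.MP_ff3579_an.H78.Main

/-! Module MAIN: assembly. -/

set_option autoImplicit false

open Polynomial

namespace Pool.Agent.Lib.MP_ff3579_an.X.H78

open Pool.Agent.Lib.MP_ff3579_an Pool.Agent.Lib.MP_ff3579_an.H78

theorem irreducible_all (hCnt : CntStatement) (hBox : BoxStatement) (hMid : MidStatement)
    (hTla : TlaStatement) (hTlb : TlbStatement) (hThw : ThwStatement) (hThl : ThlStatement)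
    (hNpx : NpxStatement) (hNpl : NplStatement) (hSml : SmlStatement) :
    ∀ N, 2 ≤ N → Irreducible (Zp N) := by
  intro N hN2
  have hmon := Zp_monic N
  have hne1 : Zp N ≠ 1 := by
    intro h
    have h1 := Zp_natDegree N
    rw [h, natDegree_one] at h1
    omega
  rw [hmon.irreducible_iff_natDegree' ]
  refine ⟨hne1, fun B A hB hA hBA hmem => ?_⟩
  rw [Finset.mem_Ioc, Zp_natDegree] at hmem
  have hAB : A * B = Zp N := by rw [mul_comm]; exact hBA
  have hdeg : A.natDegree + B.natDegree = N / 2 := by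
    rw [← hA.natDegree_mul hB, hAB, Zp_natDegree]
  obtain ⟨k, hk⟩ : ∃ k, k = A.natDegree := ⟨_, rfl⟩
  rw [← hk] at hmem hdeg
  have hk1 : 1 ≤ k := hmem.1
  have hslp : ∀ h : Good N k ∨ Large N k, False := fun h =>
    slp N k A B hk1 h hAB hA hB hk.symm
  rcases Nat.lt_or_ge N 25000 with hN | hN
  · rcases hSml N k (by omega) hN hk1 (by omega) with h | h
    · obtain ⟨p, hp, hp3, h | h⟩ := h
      · rcases near_below hAB hA hB hp hp3 h.1 h.2.1 with h4 | h4 <;> omega
      · rcases near_above hAB hA hB hp hp3 h.1 h.2.1 with h4 | h4 <;> omega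
    · exact hslp (Or.inl h)
  · have hnp : ∃ p, p.Prime ∧ 9 * N ≤ 10 * p ∧ 10 * p ≤ 11 * N := by
      rcases Nat.lt_or_ge N (10 ^ 6) with h | h
      · exact hNpl N hN h
      · exact hNpx N h
    have hk20 : 20 * k ≤ N := by
      obtain ⟨p, hp, h1, h2⟩ := hnp
      rcases Nat.lt_or_ge N p with h | h
      · rcases near_above hAB hA hB hp (by omega) h (by omega) with h3 | h3 <;> omega
      · rcases near_below hAB hA hB hp (by omega) h (by omega) with h3 | h3 <;> omega
    have hwin : Win N k → False := fun h => hslp (Or.inl (hCnt N k hk1 (by omega) h))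
    rcases Nat.lt_or_ge k 30 with hk30 | hk30
    · rcases Nat.lt_or_ge (2 * N) (T k) with hT | hT
      · exact hwin (hBox N k hk1 hk30 hN hT)
      · rcases Nat.lt_or_ge k 3 with hk3 | hk3
        · exact hwin (hTlb N k hk1 (by omega) hT)
        · exact hwin (hTla N k hk3 hT)
    · rcases le_total (4 * k ^ 2) N with h4 | h4
      · rcases Nat.lt_or_ge (2 * N) ((8 * k - 2) ^ 100) with hT | hT
        · exact hwin (hMid N k hk30 h4 hT)
        · refine hwin (hTla N k (by omega) ?_)
          unfold T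
          rw [if_neg (by omega)]
          exact hT
      · rcases le_total (60 * k) N with h6 | h6
        · exact hslp (Or.inl (hThw N k hN h4 h6))
        · exact hslp (Or.inr (hThl N k hN h6 hk20))

theorem not_solvable_all (hNsv : NsvStatement) {N : ℕ} (hN : 10 ≤ N) (hirr : Irreducible (Zp N)) :
    ¬ Group.IsSolvable ((Zp N).map (Int.castRingHom ℚ)).Gal := by
  rcases Nat.lt_or_ge N 33 with h | h
  · exact hNsv N hN h hirr
  · exact not_solvable_of_irreducible h hirr

theorem final_of (hirr : ∀ N, 2 ≤ N → Irreducible (Zp N)) (hNsv : NsvStatement)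
    (n : ℕ) (hn : 1 ≤ n) : (minpoly ℚ (markovConst n 2 ^ 2)).natDegree = (n + 1) / 2 ∧
    (((markovConst n 2 : ℝ) : ℂ) ∈ solvableByRad ℚ ℂ ↔ n ≤ 8) := by
  refine ⟨natDegree_minpoly hn (hirr _ (by omega)), ?_, fun h => sol n hn h⟩
  intro h
  by_contra h8
  push Not at h8
  exact not_mem_of_not_solvable hn (hirr _ (by omega))
    (not_solvable_all hNsv (by omega) (hirr _ (by omega))) h

end Pool.Agent.Lib.MP_ff3579_an.X.H78
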